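import Mathlib

/-!
# Squad PPX: definitions

`P4 k` is the polynomial ring in the variables `x, z, θ, Λ`, which are `X 0, X 1, X 2, X 3`.
`L_ij` is the line `x = a i`, `z = b j`, `Λ = t j - s i * θ`.
-/

set_option autoImplicit false

universe u

namespace Pool.Agent.PPX

open MvPolynomial

/-- polynomials in `x, z, θ, Λ` -/
abbrev P4 (k : Type*) [CommSemiring k] := MvPolynomial (Fin 4) k

/-- polynomials with degree at most `n v` in the variable `v` -/
noncomputable def box (k : Type*) [CommSemiring k] {σ : Type*} (n : σ → ℕ) : Submodule k (MvPolynomial σ k) :=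
  restrictSupport k {s | ∀ v, s v ≤ n v}

/-- degree at most `d₁` in `x`, at most `d₂` in `z`, at most `M` in `θ` and at most `M` in `Λ` -/
noncomputable def Qd (k : Type*) [CommSemiring k] (d₁ d₂ M : ℕ) : Submodule k (P4 k) := box k ![d₁, d₂, M, M]

/-- degree at most `d₁` in `x`, at most `d₂` in `z`, total degree at most `M` in `θ, Λ` -/
noncomputable def Td (k : Type*) [CommSemiring k] (d₁ d₂ M : ℕ) : Submodule k (P4 k) :=
  restrictSupport k {s | s 0 ≤ d₁ ∧ s 1 ≤ d₂ ∧ s 2 + s 3 ≤ M}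

section

variable {k : Type*} [Field k]

/-- restriction to the line `L_ij`, with `a = a i`, `b = b j`, `s = s i`, `t = t j` -/
noncomputable def lin (a b s t : k) : P4 k →ₐ[k] Polynomial k :=
  aeval ![Polynomial.C a, Polynomial.C b, Polynomial.X,
    Polynomial.C t - Polynomial.C s * Polynomial.X]

/-- restriction to the plane `x = a`, `z = b` -/
noncomputable def pla (a b : k) : P4 k →ₐ[k] P4 k := aeval ![C a, C b, X 2, X 3]

/-- polynomials in `x, z` -/
noncomputable def inc : MvPolynomial (Fin 2) k →ₐ[k] P4 k := rename ![0, 1]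

/-- `F (x, z, c, y)` at `y = Λ + c θ` -/
noncomputable def sb (c : k) : P4 k →ₐ[k] P4 k := aeval ![X 0, X 1, C c, X 3 + C c * X 2]

/-- general position of the points `(b j, t j)` -/
def GP {N : ℕ} (b t : Fin N → k) : Prop :=
  ∀ (m n : ℕ) (G : MvPolynomial (Fin 2) k) (J : Finset (Fin N)), 2 * ((m + 1) * (n + 1)) ≤ N →
    G ≠ 0 → degreeOf 0 G ≤ m → degreeOf 1 G ≤ n → (∀ j ∈ J, eval ![b j, t j] G = 0) →
    J.card < (m + 1) * (n + 1)

/-- the sums `2 ∑ 1 / (b j - b l)` over `l ≠ j` -/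
noncomputable def slope {N : ℕ} (b : Fin N → k) (j : Fin N) : k :=
  ∑ l ∈ Finset.univ.erase j, 2 / (b j - b l)

/-- no nonzero polynomial of degree at most `B` in the ideal -/
def Big (I : Ideal (Polynomial k)) (B : ℕ) : Prop := ∀ q ∈ I, q.natDegree ≤ B → q = 0

end

/-- admissible degrees -/
def Adm (K₀ M₀ N₁ N₂ d₁ d₂ M : ℕ) : Prop :=
  K₀ * (d₁ * N₂ + d₂ * N₁) ≤ (K₀ - 1) * (N₁ * N₂) ∧ M ≤ M₀

/-- dimension of the image of a space of polynomials modulo the ideal -/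
noncomputable def hh {k : Type*} [Field k] {σ : Type*} (v : Ideal (MvPolynomial σ k))
    (W : Submodule k (MvPolynomial σ k)) : ℕ :=
  Module.finrank k (W.map (Ideal.Quotient.mkₐ k v).toLinearMap)

/-- the system obtained from a family of curves -/
structure IsSys {k : Type*} [Field k] {N₁ N₂ : ℕ} (a s : Fin N₁ → k) (b t : Fin N₂ → k)
    (K₀ M₀ : ℕ) (v : Ideal (P4 k)) (D : Fin N₁ → Fin N₂ → Ideal (Polynomial k)) : Prop where
  prime : v.IsPrime
  plane : ∀ F : MvPolynomial (Fin 2) k, inc F ∈ v → F = 0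
  line : ∀ Q ∈ v, ∀ i j, lin (a i) (b j) (s i) (t j) Q ∈ D i j
  first : ∀ Q ∈ v, ∀ i j, pla (a i) (b j) Q = 0 →
    Polynomial.X * lin (a i) (b j) (s i) (t j) (pderiv 0 Q) +
      lin (a i) (b j) (s i) (t j) (pderiv 1 Q) ∈ D i j
  count : ∀ d₁ d₂ M, Adm K₀ M₀ N₁ N₂ d₁ d₂ M → ∀ Q ∈ Qd k d₁ d₂ M,
    (∀ i j, lin (a i) (b j) (s i) (t j) Q ∈ D i j) → Q ∈ v

/-- the data of one curve: the ideal `p` of the relations between `x, z, θ, Λ`, and the set `G` of
the `(i, j, I)` where `I` is the ideal of the value of `θ` at a good point over `(a i, b j)` -/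
structure IsDat {k : Type*} [Field k] {N₁ N₂ : ℕ} (a s : Fin N₁ → k) (b t : Fin N₂ → k)
    (K₀ M₀ : ℕ) (p : Ideal (P4 k)) (G : Set (Fin N₁ × Fin N₂ × Ideal (Polynomial k))) : Prop where
  prime : p.IsPrime
  line : ∀ Q ∈ p, ∀ g ∈ G, lin (a g.1) (b g.2.1) (s g.1) (t g.2.1) Q ∈ g.2.2
  first : ∀ Q ∈ p, ∀ g ∈ G, pla (a g.1) (b g.2.1) Q = 0 →
    Polynomial.X * lin (a g.1) (b g.2.1) (s g.1) (t g.2.1) (pderiv 0 Q) +
      lin (a g.1) (b g.2.1) (s g.1) (t g.2.1) (pderiv 1 Q) ∈ g.2.2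
  count : ∀ d₁ d₂ M, Adm K₀ M₀ N₁ N₂ d₁ d₂ M → ∀ Q ∈ Qd k d₁ d₂ M,
    (∀ g ∈ G, lin (a g.1) (b g.2.1) (s g.1) (t g.2.1) Q ∈ g.2.2) → Q ∈ p

/-- `F (x, z, c, Λ + c θ)` vanishes modulo `v` for all constants `c` -/
def Van {k : Type*} [Field k] (v : Ideal (P4 k)) (F : P4 k) : Prop := ∀ c : k, sb c F ∈ v

/-- a field containing the quotient by the prime ideal `v` and an element `c` transcendental over
it; `e` is the image of the variables `x, z, θ, Λ` -/
structure IsGen {k : Type*} [Field k] (v : Ideal (P4 k)) {E : Type*} [Field E] [Algebra k E]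
    (e : Fin 4 → E) (c : E) : Prop where
  ker : ∀ Q : P4 k, aeval e Q = 0 ↔ Q ∈ v
  tr : ∀ F : Polynomial (P4 k), F.eval₂ (aeval e : P4 k →ₐ[k] E).toRingHom c = 0 →
    ∀ l, F.coeff l ∈ v
  van : ∀ F : P4 k, aeval ![e 0, e 1, c, e 3 + c * e 2] F = 0 ↔ Van v F

end Pool.Agent.PPX
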