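import Mathlib
import Pool.Agent.Helper97_PGH.Good
import Pool.Agent.Helper3_PPX.Defs

/-!
# Squad PPX: definitions and statements, part 2 (places)
-/

set_option autoImplicit false

universe u v

namespace Pool.Agent.PPX

open MvPolynomial PGH

/-- `θ = dx / dz` -/
noncomputable def th {E : Type*} [Field E] (D : Derivation ℤ E E) (x z : E) : E := D x / D z

/-- `Λ = (D θ / θ - 2 (∑ D x / (x - a i) - ∑ D z / (z - b j))) / D z` -/
noncomputable def la {E : Type*} [Field E] (D : Derivation ℤ E E) {N₁ N₂ : ℕ} (a : Fin N₁ → E)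
    (b : Fin N₂ → E) (x z : E) : E :=
  (D (th D x z) / th D x z - 2 * (∑ i, D x / (x - a i) - ∑ j, D z / (z - b j))) / D z

/-- nonstatic places where the derivation is regular -/
def Mov {L E : Type*} [Field L] [Field E] [Algebra L E] (D : Derivation ℤ E E) (P : Place L E) :
    Prop :=
  DGe P D 0 ∧ ∃ y, P.Ge 1 y ∧ ¬ P.Ge 1 (D y)

/-- `P` is a good place over `(a i, b j)` -/
def Node {L E : Type*} [Field L] [Field E] [Algebra L E] (D : Derivation ℤ E E) {N₁ N₂ : ℕ}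
    (a : Fin N₁ → L) (b : Fin N₂ → L) (x z : E) (i : Fin N₁) (j : Fin N₂) (P : Place L E) : Prop :=
  Mov D P ∧ P.ord (x - algebraMap L E (a i)) = 1 ∧ P.ord (z - algebraMap L E (b j)) = 1

/-- LOC: the values of `θ` and `Λ` at a good place -/
def LocStmt : Prop :=
  ∀ {L E : Type u} [Field L] [Field E] [Algebra L E] [CharZero L] [CharZero E] (P : Place L E)
    (D : Derivation ℤ E E) {N₁ N₂ : ℕ} (a : Fin N₁ → L) (b : Fin N₂ → L) (x z : E) (i : Fin N₁)
    (j : Fin N₂), Function.Injective a → Function.Injective b →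
    (∀ i, D (algebraMap L E (a i)) = 0) → (∀ j, D (algebraMap L E (b j)) = 0) →
    Node D a b x z i j P →
    P.Ge 1 (th D x z - (x - algebraMap L E (a i)) / (z - algebraMap L E (b j))) ∧
    P.ord (th D x z) = 0 ∧
    P.Ge 1 (la D (fun i => algebraMap L E (a i)) (fun j => algebraMap L E (b j)) x z -
      (algebraMap L E (slope b j) - algebraMap L E (slope a i) * th D x z))

/-- TAY: the first order condition -/
def TayStmt : Prop :=
  ∀ {k L E : Type u} [Field k] [Field L] [Field E] [Algebra k L] [Algebra L E] [Algebra k E]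
    [IsScalarTower k L E] (P : Place L E) (α β : k) (e : Fin 4 → E) (Q : P4 k),
    P.Ge 1 (e 0 - algebraMap k E α) → P.Ge 1 (e 1 - algebraMap k E β) →
    e 1 ≠ algebraMap k E β → P.Ge 0 (e 2) → P.Ge 0 (e 3) →
    P.Ge 1 (e 2 - (e 0 - algebraMap k E α) / (e 1 - algebraMap k E β)) →
    aeval e Q = 0 → pla α β Q = 0 →
    P.Ge 1 (e 2 * aeval e (pderiv 0 Q) + aeval e (pderiv 1 Q))

/-- the derivation has poles bounded by `cp`, supported in `sc` -/
structure Bp {L E : Type*} [Field L] [Field E] [Algebra L E] (D : Derivation ℤ E E)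
    (cp : Place L E → ℕ) (sc : Finset (Place L E)) : Prop where
  cp0 : ∀ P ∉ sc, cp P = 0
  dge : ∀ P, DGe P D (-(cp P : ℤ))

/-- outside `bd`, at the nonstatic places, simple zeros of the `x - a i` are zeros of some `z - b j`
or poles of `z`, and conversely -/
structure Pat {L E : Type*} [Field L] [Field E] [Algebra L E] (D : Derivation ℤ E E) {N₁ N₂ : ℕ}
    (a : Fin N₁ → L) (b : Fin N₂ → L) (x z : E) (bd : Finset (Place L E)) : Prop where
  one : ∀ P ∉ bd, Mov D P → ∀ i, P.ord (x - algebraMap L E (a i)) = 1 → P.Ge 0 z →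
    ∃ j, P.Ge 1 (z - algebraMap L E (b j))
  two : ∀ P ∉ bd, Mov D P → ∀ j, P.ord (z - algebraMap L E (b j)) = 1 → P.Ge 0 x →
    ∃ i, P.Ge 1 (x - algebraMap L E (a i))

/-- NGC: the number of good places, and the places where `f(x) / g(z)` is not a unit.  Here
`a, b` are constants. -/
def NgcStmt : Prop :=
  ∀ {L E : Type u} [Field L] [Field E] [Algebra L E] [IsAlgClosed L] [CharZero L] [CharZero E]
    [FF L E] (D : Derivation ℤ E E) (cp : Place L E → ℕ) (sc bd : Finset (Place L E)),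
    Bp D cp sc → ∀ {N₁ N₂ : ℕ} (a : Fin N₁ → L) (b : Fin N₂ → L) (x z : E),
    Function.Injective a → Function.Injective b →
    (∀ i, D (algebraMap L E (a i)) = 0) → (∀ j, D (algebraMap L E (b j)) = 0) →
    D x ≠ 0 → D z ≠ 0 → Pat D a b x z bd →
    (∃ S : Finset (Place L E), (∀ P ∈ S, ∃ i j, Node D a b x z i j P) ∧
      N₁ * ht L x ≤ S.card + 4 * ht L x + 3 * ht L z + 4 * (∑ P ∈ sc, cp P) + bd.card ∧
      N₂ * ht L z ≤ S.card + 4 * ht L z + 3 * ht L x + 4 * (∑ P ∈ sc, cp P) + bd.card) ∧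
    ∀ S : Finset (Place L E), (∀ P ∈ S, P.ord ((∏ i, (x - algebraMap L E (a i))) /
      ∏ j, (z - algebraMap L E (b j))) ≠ 0) →
      S.card ≤ 3 * (ht L x + ht L z) + 3 * (∑ P ∈ sc, cp P) + bd.card

/-- HTL: the heights of `θ` and `Λ`.  Here `Z` bounds the number of places where `f(x) / g(z)` is
not a unit. -/
def HtlStmt : Prop :=
  ∀ {L E : Type u} [Field L] [Field E] [Algebra L E] [IsAlgClosed L] [CharZero L] [CharZero E]
    [FF L E] (D : Derivation ℤ E E) (cp : Place L E → ℕ) (sc : Finset (Place L E)),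
    Bp D cp sc → ∀ {N₁ N₂ : ℕ} (a : Fin N₁ → L) (b : Fin N₂ → L) (x z : E),
    (∀ i, D (algebraMap L E (a i)) = 0) → (∀ j, D (algebraMap L E (b j)) = 0) →
    D x ≠ 0 → D z ≠ 0 → ∀ Z : ℕ,
    (∀ S : Finset (Place L E), (∀ P ∈ S, P.ord ((∏ i, (x - algebraMap L E (a i))) /
      ∏ j, (z - algebraMap L E (b j))) ≠ 0) → S.card ≤ Z) →
    ht L (th D x z) ≤ 2 * (ht L x + ht L z) + 2 * ∑ P ∈ sc, cp P ∧
    ht L (la D (fun i => algebraMap L E (a i)) (fun j => algebraMap L E (b j)) x z) ≤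
      6 * (ht L x + ht L z) + 7 * (∑ P ∈ sc, cp P) + Z

/-- CNT: a polynomial of admissible degrees which vanishes on all the lines vanishes -/
def CntStmt : Prop :=
  ∀ {k L E : Type u} [Field k] [Field L] [Field E] [Algebra k L] [Algebra L E] [Algebra k E]
    [IsScalarTower k L E] [IsAlgClosed L] [CharZero L] [CharZero E]
    [FF L E] (D : Derivation ℤ E E) (cp : Place L E → ℕ) (sc bd : Finset (Place L E)),
    Bp D cp sc → ∀ (K₀ M₀ N₁ N₂ : ℕ), 1 ≤ K₀ → 4 * K₀ * (12 * M₀ + 4) + 16 ≤ N₁ →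
    4 * K₀ * (12 * M₀ + 4) + 16 ≤ N₂ → ∀ (a : Fin N₁ → L) (b : Fin N₂ → L) (x z : E),
    Function.Injective a → Function.Injective b →
    (∀ i, D (algebraMap L E (a i)) = 0) → (∀ j, D (algebraMap L E (b j)) = 0) →
    D x ≠ 0 → D z ≠ 0 → Pat D a b x z bd →
    (∑ P ∈ sc, cp P) + bd.card < ht L x + ht L z →
    ∀ (d₁ d₂ M : ℕ), Adm K₀ M₀ N₁ N₂ d₁ d₂ M → ∀ Q ∈ Qd k d₁ d₂ M,
    (∀ i j P, Node D a b x z i j P → P.Ge 1 (aeval ![x, z, th D x z,
      la D (fun i => algebraMap L E (a i)) (fun j => algebraMap L E (b j)) x z] Q)) →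
    aeval ![x, z, th D x z,
      la D (fun i => algebraMap L E (a i)) (fun j => algebraMap L E (b j)) x z] Q = 0

/-- BDT: construction of the data of a curve -/
def BdtStmt : Prop :=
  ∀ {k L E : Type u} [Field k] [Field L] [Field E] [Algebra k L] [Algebra L E] [Algebra k E]
    [IsScalarTower k L E] [IsAlgClosed L] [CharZero k] [CharZero L] [CharZero E]
    [FF L E] (D : Derivation ℤ E E) (cp : Place L E → ℕ) (sc bd : Finset (Place L E)),
    Bp D cp sc → (∀ c : k, D (algebraMap k E c) = 0) → ∀ (K₀ M₀ N₁ N₂ : ℕ), 1 ≤ K₀ →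
    4 * K₀ * (12 * M₀ + 4) + 16 ≤ N₁ → 4 * K₀ * (12 * M₀ + 4) + 16 ≤ N₂ →
    ∀ (a : Fin N₁ → k) (b : Fin N₂ → k) (x z : E),
    Function.Injective a → Function.Injective b → D x ≠ 0 → D z ≠ 0 →
    Pat D (fun i => algebraMap k L (a i)) (fun j => algebraMap k L (b j)) x z bd →
    (∑ P ∈ sc, cp P) + bd.card < ht L x + ht L z →
    ∃ (e₂ e₃ : E) (G : Set (Fin N₁ × Fin N₂ × Ideal (Polynomial k))),
      IsDat a (slope a) b (slope b) K₀ M₀
        (RingHom.ker (aeval ![x, z, e₂, e₃] : P4 k →ₐ[k] E)) G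

/-- the curves which are not contained in `F = 0` have bounded height -/
def Exc {k : Type u} [Field k] {N₁ N₂ : ℕ} (a : Fin N₁ → k) (b : Fin N₂ → k)
    (F : MvPolynomial (Fin 2) k) : Prop :=
  ∀ {L E : Type u} [Field L] [Field E] [Algebra k L] [Algebra L E] [Algebra k E]
    [IsScalarTower k L E] [IsAlgClosed L] [CharZero L] [CharZero E]
    [FF L E] (D : Derivation ℤ E E) (cp : Place L E → ℕ) (sc bd : Finset (Place L E)),
    Bp D cp sc → (∀ c : k, D (algebraMap k E c) = 0) → ∀ (x z : E), D x ≠ 0 → D z ≠ 0 →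
    Pat D (fun i => algebraMap k L (a i)) (fun j => algebraMap k L (b j)) x z bd →
    aeval ![x, z] F ≠ 0 → ht L x + ht L z ≤ (∑ P ∈ sc, cp P) + bd.card

/-- HTX: the height inequality outside a plane curve -/
def HtxStmt : Prop :=
  ∃ N₀ : ℕ, 20 ≤ N₀ ∧ ∀ {k : Type u} [Field k] [CharZero k] {N₁ N₂ : ℕ}
    (a : Fin N₁ → k) (b : Fin N₂ → k), N₀ ≤ N₁ → N₀ ≤ N₂ → Function.Injective a →
    Function.Injective b → GP b (slope b) →
    ∃ F : MvPolynomial (Fin 2) k, F ≠ 0 ∧ Exc a b F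

/-- the relations: for each `r`, the product of the powers of the `x - a i` and of the `z - b j` is
`c r` times an `e r`-th power, and each `a i` and each `b j` is a branch point of one of the
relations -/
structure Rels {E : Type*} [Field E] {N₁ N₂ R : ℕ} (x z : E) (a : Fin N₁ → E) (b : Fin N₂ → E)
    (α : Fin R → Fin N₁ → ℤ) (β : Fin R → Fin N₂ → ℤ) (e : Fin R → ℕ) (c y : Fin R → E) :
    Prop where
  ne : ∀ r, c r ≠ 0
  rel : ∀ r, (∏ i, (x - a i) ^ α r i) * (∏ j, (z - b j) ^ β r j) = c r * y r ^ e r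
  left : ∀ i, ∃ r, ¬ (e r : ℤ) ∣ α r i
  right : ∀ j, ∃ r, ¬ (e r : ℤ) ∣ β r j

/-- PA2: the relations give the pattern -/
def Pa2Stmt : Prop :=
  ∀ {L E : Type u} [Field L] [Field E] [Algebra L E] (P : Place L E) {N₁ N₂ R : ℕ} (x z : E)
    (a : Fin N₁ → L) (b : Fin N₂ → L) (α : Fin R → Fin N₁ → ℤ) (β : Fin R → Fin N₂ → ℤ)
    (e : Fin R → ℕ) (c y : Fin R → E),
    Function.Injective a → Function.Injective b →
    (∀ i, x ≠ algebraMap L E (a i)) → (∀ j, z ≠ algebraMap L E (b j)) →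
    Rels x z (fun i => algebraMap L E (a i)) (fun j => algebraMap L E (b j)) α β e c y →
    (∀ r, P.ord (c r) = 0) →
    (∀ i, P.ord (x - algebraMap L E (a i)) = 1 → P.Ge 0 z →
      ∃ j, P.Ge 1 (z - algebraMap L E (b j))) ∧
    (∀ j, P.ord (z - algebraMap L E (b j)) = 1 → P.Ge 0 x →
      ∃ i, P.Ge 1 (x - algebraMap L E (a i)))

/-- HGT: bounded heights -/
def HgtStmt : Prop :=
  ∀ {k E : Type u} [Field k] [Field E] [Algebra k E] [IsAlgClosed k] [CharZero k] [CharZero E]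
    [FF k E] (D : Derivation ℤ E E), (∀ w, D w = 0 ↔ ∃ c : k, algebraMap k E c = w) →
    ∀ (cp : Place k E → ℕ) (sc : Finset (Place k E)), Bp D cp sc →
    ∀ {N₁ N₂ R : ℕ} (x z : E) (a : Fin N₁ → k) (b : Fin N₂ → k) (α : Fin R → Fin N₁ → ℤ)
      (β : Fin R → Fin N₂ → ℤ) (e : Fin R → ℕ) (c y : Fin R → E) (F : MvPolynomial (Fin 2) k),
    20 ≤ N₁ → 20 ≤ N₂ → Function.Injective a → Function.Injective b →
    (∀ i, x ≠ algebraMap k E (a i)) → (∀ j, z ≠ algebraMap k E (b j)) →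
    Rels x z (fun i => algebraMap k E (a i)) (fun j => algebraMap k E (b j)) α β e c y →
    Exc a b F → aeval ![x, z] F ≠ 0 →
    ht k x + ht k z ≤ 10 * (∑ P ∈ sc, cp P) + 10 * ∑ r, 2 * ht k (c r)

/-- RIG: rigidity -/
def RigStmt : Prop :=
  ∀ {k L E : Type u} [Field k] [IsAlgClosed k] [Field L] [Field E] [Algebra k L] [Algebra L E]
    [Algebra k E] [IsScalarTower k L E] [IsAlgClosed L] [CharZero k] [CharZero L] [CharZero E]
    [FF L E] (D : Derivation ℤ E E), PresL L D → (∀ c : k, D (algebraMap k E c) = 0) →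
    (∀ P : Place L E, DGe P D 0) → ∀ P₀ : Place L E, (∀ y, P₀.Ge 1 y → P₀.Ge 1 (D y)) →
    ∀ {N₁ N₂ R : ℕ} (x z : E) (a : Fin N₁ → k) (b : Fin N₂ → k) (α : Fin R → Fin N₁ → ℤ)
      (β : Fin R → Fin N₂ → ℤ) (e : Fin R → ℕ) (c y : Fin R → E) (F : MvPolynomial (Fin 2) k),
    20 ≤ N₁ → 20 ≤ N₂ → Function.Injective a → Function.Injective b →
    (∀ i, x ≠ algebraMap k E (a i)) → (∀ j, z ≠ algebraMap k E (b j)) →
    Rels x z (fun i => algebraMap k E (a i)) (fun j => algebraMap k E (b j)) α β e c y →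
    (∀ r, D (c r) = 0) → Exc a b F → aeval ![x, z] F ≠ 0 →
    (∃ κ : k, P₀.Ge 1 (x - algebraMap k E κ)) → (∃ κ : k, P₀.Ge 1 (z - algebraMap k E κ)) →
    D x = 0 ∧ D z = 0

/-- A pair step from the subfield `F` to the subfield `F'` of `M`, relative to the field of
constants `K`. -/
structure PairStep (N₀ : ℕ) {M : Type*} [Field M] (K F F' : Subfield M) : Prop where
  le : F ≤ F'
  step : ∃ (N₁ N₂ R : ℕ) (x z : M) (a : Fin N₁ → M) (b : Fin N₂ → M) (α : Fin R → Fin N₁ → ℤ)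
    (β : Fin R → Fin N₂ → ℤ) (e : Fin R → ℕ) (c y : Fin R → M),
    N₀ ≤ N₁ ∧ N₀ ≤ N₂ ∧ (∀ i, a i ∈ K) ∧ (∀ j, b j ∈ K) ∧ Function.Injective a ∧
    Function.Injective b ∧ GP b (slope b) ∧ (∀ r, c r ∈ F) ∧ Rels x z a b α β e c y ∧
    (∀ p : MvPolynomial (Fin 2) K, eval₂ K.subtype ![x, z] p = 0 → p = 0) ∧
    ∀ w ∈ F', IsAlgebraic (Subfield.closure ((F : Set M) ∪ {x, z})) w

/-- GOO: pair steps preserve good elements -/
def GooStmt : Prop :=
  ∃ N₀ : ℕ, ∀ {k : Type u} {M : Type v} [Field k] [Field M] [Algebra k M] [IsAlgClosed k]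
    [CharZero k] (F₀ : Set M) (F F' : Subfield M),
    PairStep N₀ (algebraMap k M).fieldRange F F' → (∀ w ∈ F, GoodEl k F₀ w) →
    ∀ w ∈ F', GoodEl k F₀ w

end Pool.Agent.PPX
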