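import Mathlib
import Pool.Agent.Helper3_PPX.Defs

/-!
# Squad PPX: statements, part 1 (algebra)
-/

set_option autoImplicit false

universe u v

namespace Pool.Agent.PPX

open MvPolynomial

/-- BOX: the spaces of polynomials (three facts, Mathlib only) -/
def BoxStmt : Prop :=
  (∀ {k : Type u} [Field k] {n : ℕ} (d : Fin n → ℕ),
    (∀ p : MvPolynomial (Fin n) k, p ∈ box k d ↔ ∀ v, degreeOf v p ≤ d v) ∧
    Module.Finite k (box k d) ∧ Module.finrank k (box k d) = ∏ v, (d v + 1)) ∧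
  (∀ {k : Type u} [Field k] {n : ℕ} (d : Fin n → ℕ) (R : MvPolynomial (Fin n) k), R ≠ 0 →
    (∀ v, degreeOf v R ≤ d v) → ∀ (W : Submodule k (MvPolynomial (Fin n) k)),
    W ≤ box k d → (∀ Q ∈ W, R ∣ Q) →
    Module.finrank k W ≤ ∏ v, (d v + 1 - degreeOf v R)) ∧
  (∀ {k : Type u} [Field k] {n : ℕ} (R Q : MvPolynomial (Fin n) k), Q ≠ 0 → R ∣ Q →
    ∀ v, degreeOf v R ≤ degreeOf v Q)

/-- ULT: a family of curves which is not contained in any plane curve gives a system -/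
def UltStmt : Prop :=
  ∀ {k : Type u} [Field k] {N₁ N₂ : ℕ} (a s : Fin N₁ → k) (b t : Fin N₂ → k) (K₀ M₀ : ℕ),
    (∀ F : MvPolynomial (Fin 2) k, F ≠ 0 → ∃ p G, IsDat a s b t K₀ M₀ p G ∧ inc F ∉ p) →
    ∃ v D, IsSys a s b t K₀ M₀ v D

/-- UPP: the upper bound for the dimensions -/
def UppStmt : Prop :=
  ∀ {k : Type u} [Field k] {N₁ N₂ : ℕ} (a s : Fin N₁ → k) (b t : Fin N₂ → k) (K₀ M₀ : ℕ)
    (v : Ideal (P4 k)) (D : Fin N₁ → Fin N₂ → Ideal (Polynomial k)),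
    IsSys a s b t K₀ M₀ v D → ∀ d₁ d₂ M n B : ℕ, Adm K₀ M₀ N₁ N₂ d₁ d₂ M →
    ∀ W ≤ Qd k d₁ d₂ M,
    (∀ Q ∈ W, ∀ i j, (lin (a i) (b j) (s i) (t j) Q).natDegree ≤ n) →
    hh v W ≤ (n + 1) * ({q : Fin N₁ × Fin N₂ | Big (D q.1 q.2) B}.ncard) + B * (N₁ * N₂)

/-- STA: existence of an irreducible equation of small degree -/
def StaStmt : Prop :=
  ∀ {k : Type u} [Field k] {N₁ N₂ : ℕ} (a s : Fin N₁ → k) (b t : Fin N₂ → k) (K₀ M₀ : ℕ)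
    (v : Ideal (P4 k)) (D : Fin N₁ → Fin N₂ → Ideal (Polynomial k)),
    IsSys a s b t K₀ M₀ v D → ∀ K d₁ d₂ : ℕ, N₁ * N₂ ≤ K * ((d₁ + 1) * (d₂ + 1)) →
    Adm K₀ M₀ N₁ N₂ d₁ d₂ (2 * K) →
    ∃ R ∈ v, Irreducible R ∧ R ∈ Qd k d₁ d₂ (2 * K)

/-- NVA: an irreducible polynomial which vanishes for `x = α` -/
def NvaStmt : Prop :=
  ∀ {k : Type u} [Field k] (α : k) (R : P4 k), Irreducible R →
    aeval ![C α, X 1, X 2, X 3] R = (0 : P4 k) → Associated R (X 0 - C α)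

/-- SBA: the coefficients of the restriction to the lines over `x = α` -/
def SbaStmt : Prop :=
  ∀ {k : Type u} [Field k] {N : ℕ} (α s : k) (b t : Fin N → k) (R : P4 k),
    aeval ![C α, X 1, X 2, X 3] R ≠ (0 : P4 k) → ∀ J : Finset (Fin N),
    (∀ j ∈ J, lin α (b j) s (t j) R = 0) →
    ∃ G : MvPolynomial (Fin 2) k, G ≠ 0 ∧ degreeOf 0 G ≤ degreeOf 1 R ∧
      degreeOf 1 G ≤ degreeOf 3 R ∧ ∀ j ∈ J, eval ![b j, t j] G = 0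

/-- STB: existence of a second equation -/
def StbStmt : Prop :=
  ∀ {k : Type u} [Field k] {N₁ N₂ : ℕ} (a s : Fin N₁ → k) (b t : Fin N₂ → k) (K₀ M₀ : ℕ)
    (v : Ideal (P4 k)) (D : Fin N₁ → Fin N₂ → Ideal (Polynomial k)),
    IsSys a s b t K₀ M₀ v D → GP b t → 0 < N₁ → ∀ K d₁ d₂ : ℕ, 0 < K →
    N₁ * N₂ ≤ K * ((d₁ + 1) * (d₂ + 1)) → N₁ ≤ K * (d₁ + 1) → 4 * K * (2 * K + 1) ≤ N₂ →
    Adm K₀ M₀ N₁ N₂ d₁ d₂ (200 * K ^ 3) →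
    ∀ R ∈ v, Irreducible R → R ∈ Qd k d₁ d₂ (2 * K) →
    ∃ Q ∈ v, Q ∈ Qd k d₁ d₂ (200 * K ^ 3) ∧ ¬ R ∣ Q

/-- COP: elimination of one variable -/
def CopStmt : Prop :=
  ∀ {k : Type u} [Field k] {σ : Type v} [Finite σ] (R Q : MvPolynomial σ k), Irreducible R →
    ¬ R ∣ Q → ∀ i : σ, ∃ U V w : MvPolynomial σ k, U * R + V * Q = w ∧ w ≠ 0 ∧ degreeOf i w = 0

/-- SPA: regularity of a complete intersection in the plane -/
def SpaStmt : Prop :=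
  ∀ {k : Type u} [Field k] [Infinite k] {E : Type u} [Field E] [Algebra k E] {ι : Type}
    [Finite ι] (a : ι → E) (u : Fin 2 → E), AlgebraicIndependent k a →
    ∀ (R Q : MvPolynomial (ι ⊕ Fin 2) k), Irreducible R → ¬ R ∣ Q →
    aeval (Sum.elim a u) R = 0 → aeval (Sum.elim a u) Q = 0 → ∀ m : Fin 2 → ℕ,
    (∀ c, degreeOf (Sum.inr c) R ≤ m c) → (∀ c, degreeOf (Sum.inr c) Q ≤ m c) →
    ∀ n₀ n₁ : ℕ, u 0 ^ n₀ * u 1 ^ n₁ ∈ Submodule.span (IntermediateField.adjoin k (Set.range a))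
      {y | ∃ e₀ e₁ : ℕ, e₀ ≤ 2 * m 0 ∧ e₁ ≤ 2 * m 1 ∧ y = u 0 ^ e₀ * u 1 ^ e₁}

/-- GEN: the generic field -/
def GenStmt : Prop :=
  ∀ {k : Type u} [Field k] [Infinite k] (v : Ideal (P4 k)), v.IsPrime →
    ∃ (E : Type u) (_ : Field E) (_ : Algebra k E) (e : Fin 4 → E) (c : E), IsGen v e c

/-- CHG: the minimal polynomial over a factorial ring -/
def ChgStmt : Prop :=
  ∀ {A : Type u} [CommRing A] [IsDomain A] [UniqueFactorizationMonoid A] {E : Type u} [Field E]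
    [Algebra A E], Function.Injective (algebraMap A E) → ∀ (y : E) (δ : ℕ)
    (F₀ : Subfield E), (∀ c : A, algebraMap A E c ∈ F₀) →
    (∀ w ∈ F₀, ∃ p q : A, algebraMap A E q ≠ 0 ∧ w = algebraMap A E p / algebraMap A E q) →
    ¬ LinearIndependent F₀ (fun i : Fin (δ + 1) => y ^ (i : ℕ)) →
    ∃ C : Polynomial A, Irreducible C ∧ Polynomial.aeval y C = 0 ∧ C.natDegree ≤ δ ∧
      ∀ F : Polynomial A, Polynomial.aeval y F = 0 → C ∣ F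

/-- CHO: the Chow form -/
def ChoStmt : Prop :=
  ∀ {k : Type u} [Field k] [Infinite k] (v : Ideal (P4 k)), v.IsPrime →
    (∀ F : MvPolynomial (Fin 2) k, inc F ∈ v → F = 0) →
    ∀ (M : ℕ) (R Q : P4 k), R ∈ v → Q ∈ v → Irreducible R → ¬ R ∣ Q →
    degreeOf 2 R ≤ M → degreeOf 3 R ≤ M → degreeOf 2 Q ≤ M → degreeOf 3 Q ≤ M →
    ∃ C : P4 k, Irreducible C ∧ Van v C ∧ degreeOf 3 C ≤ (2 * M + 1) ^ 2 ∧
      ∀ F, Van v F → C ∣ F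

/-- SCA: independent monomials over the field generated by `c`, `x` and `y = Λ + c θ` -/
def ScaStmt : Prop :=
  ∀ {k : Type u} [Field k] [Infinite k] (v : Ideal (P4 k)), v.IsPrime →
    ∀ {E : Type u} [Field E] [Algebra k E] (f : Fin 4 → E) (c : E), IsGen v f c →
    ∀ (e M' : ℕ) (R Q C : P4 k), R ∈ v → Q ∈ v → Irreducible R → ¬ R ∣ Q →
    degreeOf 1 R ≤ e → degreeOf 1 Q ≤ e →
    degreeOf 2 R ≤ M' → degreeOf 3 R ≤ M' → degreeOf 2 Q ≤ M' → degreeOf 3 Q ≤ M' →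
    (∀ F, Van v F → C ∣ F) → 0 < degreeOf 1 C →
    AlgebraicIndependent k ![c, f 0, f 3 + c * f 2] ∧
    ∃ B : Finset (ℕ × ℕ), B.card = degreeOf 1 C ∧ (∀ p ∈ B, p.1 ≤ 2 * e ∧ p.2 ≤ 4 * M') ∧
      LinearIndependent (IntermediateField.adjoin k {c, f 0, f 3 + c * f 2})
        (fun p : B => f 1 ^ p.1.1 * f 2 ^ p.1.2)

/-- SCB: lower bound for the dimensions from independent monomials -/
def ScbStmt : Prop :=
  ∀ {k : Type u} [Field k] [Infinite k] (v : Ideal (P4 k)), v.IsPrime →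
    ∀ {E : Type u} [Field E] [Algebra k E] (f : Fin 4 → E) (c : E), IsGen v f c →
    AlgebraicIndependent k ![c, f 0, f 3 + c * f 2] →
    ∀ (d₁ d₂ m n : ℕ) (B : Finset (ℕ × ℕ)), (∀ p ∈ B, p.1 ≤ d₂ ∧ p.2 ≤ m) →
      LinearIndependent (IntermediateField.adjoin k {c, f 0, f 3 + c * f 2})
        (fun p : B => f 1 ^ p.1.1 * f 2 ^ p.1.2) →
    (d₁ + 1) * (n + 1) * B.card ≤ hh v (Td k d₁ d₂ (n + m))

/-- STC: lower bound for the dimensions -/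
def StcStmt : Prop :=
  ∀ {k : Type u} [Field k] [Infinite k] (v : Ideal (P4 k)), v.IsPrime →
    (∀ F : MvPolynomial (Fin 2) k, inc F ∈ v → F = 0) →
    ∀ (e M' M d₁ : ℕ) (R Q C : P4 k), R ∈ v → Q ∈ v → Irreducible R → ¬ R ∣ Q →
    degreeOf 1 R ≤ e → degreeOf 1 Q ≤ e →
    degreeOf 2 R ≤ M' → degreeOf 3 R ≤ M' → degreeOf 2 Q ≤ M' → degreeOf 3 Q ≤ M' →
    Irreducible C → Van v C → (∀ F, Van v F → C ∣ F) → 4 * M' ≤ M →
    (d₁ + 1) * (M - 4 * M' + 1) * degreeOf 1 C ≤ hh v (Td k d₁ (2 * e) M)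

/-- SDA: consequences of `Big` -/
def SdaStmt : Prop :=
  ∀ {k : Type u} [Field k] [Infinite k] {N₁ N₂ : ℕ} (a s : Fin N₁ → k) (b t : Fin N₂ → k)
    (K₀ M₀ : ℕ) (v : Ideal (P4 k)) (D : Fin N₁ → Fin N₂ → Ideal (Polynomial k)),
    IsSys a s b t K₀ M₀ v D → ∀ (δ : ℕ) (C : P4 k), Van v C → degreeOf 3 C ≤ δ →
    ∀ i j, Big (D i j) (δ + 1) → pla (a i) (b j) C = 0 ∧
      ∀ c : k, eval ![a i, b j, c, t j] (pderiv 1 C) = 0

/-- SDB: division of the Chow form and specialisation to `c = s` -/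
def SdbStmt : Prop :=
  ∀ {k : Type u} [Field k] [Infinite k] {N : ℕ} (α s : k) (b t : Fin N → k)
    (D : Fin N → Ideal (Polynomial k)) (C₀ : P4 k), Function.Injective b →
    aeval ![C α, X 1, X 2, X 3] C₀ ≠ (0 : P4 k) → ∀ J : Finset (Fin N),
    (∀ j ∈ J, pla α (b j) C₀ = 0 ∧ ∀ c : k, eval ![α, b j, c, t j] (pderiv 1 C₀) = 0) →
    (∀ j, ∀ c : k, lin α (b j) s (t j) (sb c C₀) ∈ D j) →
    ∃ G : MvPolynomial (Fin 2) k, G ≠ 0 ∧ degreeOf 0 G + J.card ≤ degreeOf 1 C₀ ∧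
      degreeOf 1 G ≤ degreeOf 3 C₀ ∧ ∀ j, (j ∈ J ∨ D j ≠ ⊤) → eval ![b j, t j] G = 0

/-- STD: the use of the first order information and of the general position -/
def StdStmt : Prop :=
  ∀ {k : Type u} [Field k] [Infinite k] {N₁ N₂ : ℕ} (a s : Fin N₁ → k) (b t : Fin N₂ → k)
    (K₀ M₀ : ℕ) (v : Ideal (P4 k)) (D : Fin N₁ → Fin N₂ → Ideal (Polynomial k)),
    IsSys a s b t K₀ M₀ v D → Function.Injective b → GP b t → ∀ (δ : ℕ) (C : P4 k),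
    Irreducible C → Van v C → degreeOf 3 C ≤ δ → ∀ i : Fin N₁,
    {j | Big (D i j) (δ + 1)}.ncard ≤ degreeOf 1 C ∧
    {j | D i j ≠ ⊤}.ncard ≤
      2 * ((δ + 1) * (degreeOf 1 C - {j | Big (D i j) (δ + 1)}.ncard + 1))

/-- NUM: the numerical contradiction.  `D` is the degree of the Chow form, `S i` and `T i` are the
numbers of `j` with `Big`, `≠ ⊤`, and `δ` is a bound for the degree of the Chow form in `y`. -/
def NumStmt : Prop :=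
  ∀ (δ : ℕ), ∃ K M M₀ K₀ N₀ : ℕ, 10 ≤ K₀ ∧ 0 < K ∧ 4 * (200 * K ^ 3) ≤ M ∧ M ≤ M₀ ∧
    ∀ (N₁ N₂ : ℕ), N₀ ≤ N₁ → N₀ ≤ N₂ → ∃ d₁ e : ℕ,
    Adm K₀ M₀ N₁ N₂ d₁ (2 * e) M ∧ N₁ * N₂ ≤ K * ((d₁ + 1) * (e + 1)) ∧ N₁ ≤ K * (d₁ + 1) ∧
    4 * K * (2 * K + 1) ≤ N₂ ∧
    ∀ (D : ℕ) (S T : Fin N₁ → ℕ), (∀ i, S i ≤ D) → (∀ i, S i ≤ N₂) →
      (∀ i, T i ≤ 2 * ((δ + 1) * (D - S i + 1))) →
      (d₁ + 1) * (M - 4 * (200 * K ^ 3) + 1) * D ≤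
        (M + 1) * (∑ i, S i) + (δ + 1) * (N₁ * N₂) →
      N₁ * N₂ ≤ 5 * ∑ i, T i → False

/-- ALG: the conclusion of the algebraic part -/
def AlgStmt : Prop :=
  ∃ K₀ M₀ N₀ : ℕ, 1 ≤ K₀ ∧ ∀ {k : Type u} [Field k] [Infinite k] {N₁ N₂ : ℕ}
    (a s : Fin N₁ → k) (b t : Fin N₂ → k), N₀ ≤ N₁ → N₀ ≤ N₂ → Function.Injective b → GP b t →
    ∃ F : MvPolynomial (Fin 2) k, F ≠ 0 ∧ ∀ p G, IsDat a s b t K₀ M₀ p G → inc F ∈ p

/-- GPE: the general position holds for general `b` -/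
def GpeStmt : Prop :=
  ∀ N : ℕ, ∃ Φ : MvPolynomial (Fin N) ℚ, Φ ≠ 0 ∧ ∀ {k : Type u} [Field k] [CharZero k]
    (b : Fin N → k), Function.Injective b → aeval b Φ ≠ 0 → GP b (slope b)

end Pool.Agent.PPX
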