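import Mathlib
import Pool.Agent.Helper3_PPX.Stmts

/-!
# Squad PPX, module ALG: assembly of the algebraic part
-/

set_option autoImplicit false

universe u

namespace Pool.Agent.PPX.H3

open MvPolynomial

section

variable {k : Type u} [Field k]

theorem mem_Td {d₁ d₂ M : ℕ} {Q : P4 k} :
    Q ∈ Td k d₁ d₂ M ↔ ∀ s ∈ Q.support, s 0 ≤ d₁ ∧ s 1 ≤ d₂ ∧ s 2 + s 3 ≤ M := by
  unfold Td
  rw [mem_restrictSupport_iff]
  exact Iff.rfl

theorem mem_Qd {d₁ d₂ M : ℕ} {Q : P4 k} :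
    Q ∈ Qd k d₁ d₂ M ↔ ∀ s ∈ Q.support, s 0 ≤ d₁ ∧ s 1 ≤ d₂ ∧ s 2 ≤ M ∧ s 3 ≤ M := by
  unfold Qd box
  rw [mem_restrictSupport_iff]
  constructor
  · intro h s hs
    have h1 := h hs
    exact ⟨h1 0, h1 1, h1 2, h1 3⟩
  · intro h s hs v
    have h1 := h s hs
    fin_cases v
    · exact h1.1
    · exact h1.2.1
    · exact h1.2.2.1
    · exact h1.2.2.2

theorem Td_le_Qd {d₁ d₂ M : ℕ} : Td k d₁ d₂ M ≤ Qd k d₁ d₂ M := by
  intro Q hQ
  rw [mem_Td] at hQ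
  rw [mem_Qd]
  intro s hs
  have h := hQ s hs
  exact ⟨h.1, h.2.1, by omega, by omega⟩

theorem natDegree_lin_le {Q : P4 k} {n : ℕ} (a b s t : k)
    (h : ∀ m ∈ Q.support, m 2 + m 3 ≤ n) : (lin a b s t Q).natDegree ≤ n := by
  unfold lin
  rw [aeval_def, eval₂_eq']
  apply Polynomial.natDegree_sum_le_of_forall_le
  intro m hm
  rw [Fin.prod_univ_four]
  have h1 : (Polynomial.C a ^ m 0).natDegree ≤ 0 := by
    rw [← Polynomial.C_pow, Polynomial.natDegree_C]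
  have h2 : (Polynomial.C b ^ m 1).natDegree ≤ 0 := by
    rw [← Polynomial.C_pow, Polynomial.natDegree_C]
  have h3 : ((Polynomial.X : Polynomial k) ^ m 2).natDegree ≤ m 2 := by
    refine Polynomial.natDegree_pow_le.trans ?_
    exact (Nat.mul_le_mul_left _ Polynomial.natDegree_X_le).trans (by omega)
  have h4 : ((Polynomial.C t - Polynomial.C s * Polynomial.X) ^ m 3).natDegree ≤ m 3 := by
    refine Polynomial.natDegree_pow_le.trans ?_
    have : (Polynomial.C t - Polynomial.C s * Polynomial.X).natDegree ≤ 1 := by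
      refine (Polynomial.natDegree_sub_le _ _).trans ?_
      rw [Polynomial.natDegree_C]
      refine max_le (by omega) (Polynomial.natDegree_mul_le.trans ?_)
      rw [Polynomial.natDegree_C, zero_add]
      exact Polynomial.natDegree_X_le
    exact (Nat.mul_le_mul_left _ this).trans (by omega)
  have h0 : (algebraMap k (Polynomial k) (coeff m Q)).natDegree ≤ 0 := by
    rw [Polynomial.algebraMap_eq, Polynomial.natDegree_C]
  have h5 := h m hm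
  refine Polynomial.natDegree_mul_le.trans ?_
  have e : (![Polynomial.C a, Polynomial.C b, Polynomial.X,
      Polynomial.C t - Polynomial.C s * Polynomial.X] 0 ^ m 0 *
      ![Polynomial.C a, Polynomial.C b, Polynomial.X,
      Polynomial.C t - Polynomial.C s * Polynomial.X] 1 ^ m 1 *
      ![Polynomial.C a, Polynomial.C b, Polynomial.X,
      Polynomial.C t - Polynomial.C s * Polynomial.X] 2 ^ m 2 *
      ![Polynomial.C a, Polynomial.C b, Polynomial.X,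
      Polynomial.C t - Polynomial.C s * Polynomial.X] 3 ^ m 3) =
      Polynomial.C a ^ m 0 * Polynomial.C b ^ m 1 * Polynomial.X ^ m 2 *
        (Polynomial.C t - Polynomial.C s * Polynomial.X) ^ m 3 := rfl
  rw [e]
  have h6 : (Polynomial.C a ^ m 0 * Polynomial.C b ^ m 1).natDegree ≤ 0 :=
    Polynomial.natDegree_mul_le.trans (by omega)
  have h7 : (Polynomial.C a ^ m 0 * Polynomial.C b ^ m 1 * Polynomial.X ^ m 2).natDegree ≤ m 2 :=
    Polynomial.natDegree_mul_le.trans (by omega)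
  have h8 : (Polynomial.C a ^ m 0 * Polynomial.C b ^ m 1 * Polynomial.X ^ m 2 *
        (Polynomial.C t - Polynomial.C s * Polynomial.X) ^ m 3).natDegree ≤ m 2 + m 3 :=
    Polynomial.natDegree_mul_le.trans (by omega)
  omega

theorem exists_inc {d₁ d₂ : ℕ} {Q : P4 k} (hQ : Q ∈ Qd k d₁ d₂ 0) :
    ∃ F : MvPolynomial (Fin 2) k, inc F = Q := by
  rw [mem_Qd] at hQ
  unfold inc
  apply exists_rename_eq_of_vars_subset_range
  · intro i j hij
    fin_cases i <;> fin_cases j <;> simp_all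
  · intro v hv
    rw [Finset.mem_coe, mem_vars] at hv
    obtain ⟨s, hs, hsv⟩ := hv
    have h := hQ s hs
    rw [Finsupp.mem_support_iff] at hsv
    fin_cases v
    · exact ⟨0, rfl⟩
    · exact ⟨1, rfl⟩
    · exact absurd (Nat.le_zero.1 h.2.2.1) hsv
    · exact absurd (Nat.le_zero.1 h.2.2.2) hsv

theorem hh_low (box : BoxStmt.{u}) (v : Ideal (P4 k))
    (hv : ∀ F : MvPolynomial (Fin 2) k, inc F ∈ v → F = 0) (d₁ d₂ : ℕ) :
    hh v (Qd k d₁ d₂ 0) = (d₁ + 1) * (d₂ + 1) := by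
  have h1 : hh v (Qd k d₁ d₂ 0) = Module.finrank k (Qd k d₁ d₂ 0) := by
    unfold hh
    rw [← LinearMap.range_domRestrict]
    apply LinearMap.finrank_range_of_inj
    rw [← LinearMap.ker_eq_bot, LinearMap.ker_eq_bot']
    rintro ⟨Q, hQ⟩ h0
    apply Subtype.ext
    obtain ⟨F, rfl⟩ := exists_inc hQ
    have h2 : inc F ∈ v := by
      rw [← Ideal.Quotient.eq_zero_iff_mem]
      exact h0
    change inc F = 0
    rw [hv F h2, map_zero]
  rw [h1]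
  have h2 := ((box.1 (k := k) ![d₁, d₂, 0, 0]).2).2
  have h3 : Module.finrank k (Qd k d₁ d₂ 0) = Module.finrank k (PPX.box k ![d₁, d₂, 0, 0]) := rfl
  rw [h3, h2, Fin.prod_univ_four]
  change (d₁ + 1) * (d₂ + 1) * (0 + 1) * (0 + 1) = _
  ring

end

theorem ncard_prod {N₁ N₂ : ℕ} (P : Fin N₁ → Fin N₂ → Prop) :
    {q : Fin N₁ × Fin N₂ | P q.1 q.2}.ncard = ∑ i, {j | P i j}.ncard := by
  classical
  have h1 : {q : Fin N₁ × Fin N₂ | P q.1 q.2}.ncard =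
      (Finset.univ.filter (fun q : Fin N₁ × Fin N₂ => P q.1 q.2)).card := by
    rw [← Set.ncard_coe_finset]
    congr 1
    ext q
    simp
  have h2 : ∀ i, {j | P i j}.ncard = (Finset.univ.filter (fun j => P i j)).card := by
    intro i
    rw [← Set.ncard_coe_finset]
    congr 1
    ext q
    simp
  rw [h1]
  simp only [h2, Finset.card_filter]
  rw [Fintype.sum_prod_type]

theorem ncard_mono {α : Type*} [Finite α] {P Q : α → Prop} (h : ∀ a, P a → Q a) :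
    {a | P a}.ncard ≤ {a | Q a}.ncard :=
  Set.ncard_le_ncard (fun a ha => h a ha) (Set.toFinite _)

theorem adm_first {K₀ M₀ N₁ N₂ M : ℕ} (hK : 10 ≤ K₀) (hM : M ≤ M₀) :
    Adm K₀ M₀ N₁ N₂ (9 * N₁ / 20) (9 * N₂ / 20) M := by
  refine ⟨?_, hM⟩
  have h1 : 20 * (9 * N₁ / 20) ≤ 9 * N₁ := Nat.mul_div_le _ _
  have h2 : 20 * (9 * N₂ / 20) ≤ 9 * N₂ := Nat.mul_div_le _ _
  obtain ⟨K, rfl⟩ : ∃ K, K₀ = K + 10 := ⟨K₀ - 10, by omega⟩
  have h3 : 20 * (9 * N₁ / 20 * N₂ + 9 * N₂ / 20 * N₁) ≤ 18 * (N₁ * N₂) := by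
    have h4 := Nat.mul_le_mul_right N₂ h1
    have h5 := Nat.mul_le_mul_right N₁ h2
    have h6 : 9 * N₂ * N₁ = 9 * (N₁ * N₂) := by ring
    have h7 : 9 * N₁ * N₂ = 9 * (N₁ * N₂) := by ring
    have h8 : 20 * (9 * N₁ / 20) * N₂ = 20 * (9 * N₁ / 20 * N₂) := by ring
    have h9 : 20 * (9 * N₂ / 20) * N₁ = 20 * (9 * N₂ / 20 * N₁) := by ring
    omega
  have h4 : K + 10 - 1 = K + 9 := by omega
  rw [h4]
  generalize 9 * N₁ / 20 * N₂ + 9 * N₂ / 20 * N₁ = A at h3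
  generalize N₁ * N₂ = B at h3 ⊢
  nlinarith

theorem num_first (N₁ N₂ : ℕ) : N₁ * N₂ ≤ 5 * ((9 * N₁ / 20 + 1) * (9 * N₂ / 20 + 1)) := by
  have h1 : 9 * N₁ ≤ 20 * (9 * N₁ / 20 + 1) := by omega
  have h2 : 9 * N₂ ≤ 20 * (9 * N₂ / 20 + 1) := by omega
  have h3 := Nat.mul_le_mul h1 h2
  have h4 : 9 * N₁ * (9 * N₂) = 81 * (N₁ * N₂) := by ring
  have h5 : 20 * (9 * N₁ / 20 + 1) * (20 * (9 * N₂ / 20 + 1)) =
      400 * ((9 * N₁ / 20 + 1) * (9 * N₂ / 20 + 1)) := by ring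
  omega

theorem alg (box : BoxStmt.{u}) (ult : UltStmt.{u}) (upp : UppStmt.{u}) (sta : StaStmt.{u})
    (stb : StbStmt.{u}) (cho : ChoStmt.{u}) (stc : StcStmt.{u}) (std : StdStmt.{u})
    (num : NumStmt) : AlgStmt.{u} := by
  classical
  obtain ⟨K, M, M₀, K₀, N₀, hK10, hK, hM, hMM, hnum⟩ := num ((2 * 25000 + 1) ^ 2)
  refine ⟨K₀, max M₀ 25000, max N₀ 220, by omega, ?_⟩
  intro k _ _ N₁ N₂ a s b t hN₁ hN₂ hb hGP
  by_contra hcon
  have hcon' : ∀ F : MvPolynomial (Fin 2) k, F ≠ 0 →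
      ∃ p G, IsDat a s b t K₀ (max M₀ 25000) p G ∧ inc F ∉ p := by
    intro F hF
    by_contra h
    apply hcon
    refine ⟨F, hF, fun p G hpG => ?_⟩
    by_contra h1
    exact h ⟨p, G, hpG, h1⟩
  obtain ⟨v, D, hS⟩ := ult a s b t K₀ (max M₀ 25000) hcon'
  have hN₁0 : N₀ ≤ N₁ := (le_max_left _ _).trans hN₁
  have hN₂0 : N₀ ≤ N₂ := (le_max_left _ _).trans hN₂
  have hN₁1 : 220 ≤ N₁ := (le_max_right _ _).trans hN₁
  have hN₂1 : 220 ≤ N₂ := (le_max_right _ _).trans hN₂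
  have hdeg : ∀ {d₁ d₂ M : ℕ} {Q : P4 k}, Q ∈ Qd k d₁ d₂ M →
      degreeOf 0 Q ≤ d₁ ∧ degreeOf 1 Q ≤ d₂ ∧ degreeOf 2 Q ≤ M ∧ degreeOf 3 Q ≤ M := by
    intro d₁ d₂ M Q hQ
    have h := ((box.1 (k := k) ![d₁, d₂, M, M]).1 Q).1 hQ
    exact ⟨h 0, h 1, h 2, h 3⟩
  -- the first pair
  obtain ⟨R, hRv, hRi, hRQ⟩ := sta a s b t K₀ _ v D hS 5 (9 * N₁ / 20) (9 * N₂ / 20)
    (num_first N₁ N₂) (adm_first hK10 (by omega))
  obtain ⟨Q, hQv, hQQ, hRQd⟩ := stb a s b t K₀ _ v D hS hGP (by omega) 5 (9 * N₁ / 20)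
    (9 * N₂ / 20) (by omega) (num_first N₁ N₂) (by omega) (by omega)
    (adm_first hK10 (by norm_num)) R hRv hRi hRQ
  obtain ⟨-, -, hR2, hR3⟩ := hdeg hRQ
  obtain ⟨-, -, hQ2, hQ3⟩ := hdeg hQQ
  obtain ⟨C, hCi, hCv, hC3, hCd⟩ := cho v hS.prime hS.plane 25000 R Q hRv hQv hRi hRQd
    (by omega) (by omega) (by omega) (by omega)
  -- the second pair
  obtain ⟨d₁, e, hAdm, hK1, hK2, hK3, hfin⟩ := hnum N₁ N₂ hN₁0 hN₂0
  have hAdm' : ∀ m, m ≤ M → Adm K₀ (max M₀ 25000) N₁ N₂ d₁ (2 * e) m := fun m hm =>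
    ⟨hAdm.1, hm.trans (hMM.trans (le_max_left _ _))⟩
  have hAdm'' : ∀ m, m ≤ M → Adm K₀ (max M₀ 25000) N₁ N₂ d₁ e m := by
    intro m hm
    refine ⟨le_trans ?_ hAdm.1, hm.trans (hMM.trans (le_max_left _ _))⟩
    apply Nat.mul_le_mul_left
    apply Nat.add_le_add_left
    apply Nat.mul_le_mul_right
    omega
  have hKM : 2 * K ≤ 200 * K ^ 3 := by
    have : K ≤ K ^ 3 := Nat.le_self_pow (by norm_num) K
    omega
  obtain ⟨R', hRv', hRi', hRQ'⟩ := sta a s b t K₀ _ v D hS K d₁ e hK1 (hAdm'' _ (by omega))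
  obtain ⟨Q', hQv', hQQ', hRQd'⟩ := stb a s b t K₀ _ v D hS hGP (by omega) K d₁ e hK hK1 hK2 hK3
    (hAdm'' _ (by omega)) R' hRv' hRi' hRQ'
  obtain ⟨-, hR1', hR2', hR3'⟩ := hdeg hRQ'
  obtain ⟨-, hQ1', hQ2', hQ3'⟩ := hdeg hQQ'
  have hlow := stc v hS.prime hS.plane e (200 * K ^ 3) M d₁ R' Q' C hRv' hQv' hRi' hRQd' hR1' hQ1'
    (by omega) (by omega) hQ2' hQ3' hCi hCv hCd hM
  have hup := upp a s b t K₀ _ v D hS d₁ (2 * e) M M ((2 * 25000 + 1) ^ 2 + 1) (hAdm' M le_rfl)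
    (Td k d₁ (2 * e) M) Td_le_Qd (fun Q hQ i j => natDegree_lin_le _ _ _ _ (by
      intro m hm
      exact ((mem_Td.1 hQ) m hm).2.2))
  rw [ncard_prod (fun i j => Big (D i j) ((2 * 25000 + 1) ^ 2 + 1))] at hup
  -- the low degree part
  have hl1 := hh_low box v hS.plane (9 * N₁ / 20) (9 * N₂ / 20)
  have hl2 := upp a s b t K₀ _ v D hS (9 * N₁ / 20) (9 * N₂ / 20) 0 0 0
    (adm_first hK10 (by omega)) (Qd k _ _ 0) le_rfl (fun Q hQ i j => natDegree_lin_le _ _ _ _ (by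
      intro m hm
      have := ((mem_Qd.1 hQ) m hm).2.2
      omega))
  rw [ncard_prod (fun i j => Big (D i j) 0), hl1] at hl2
  have hl3 : ∑ i, {j | Big (D i j) 0}.ncard ≤ ∑ i, {j | D i j ≠ ⊤}.ncard := by
    apply Finset.sum_le_sum
    intro i _
    apply ncard_mono
    intro j hj htop
    have h1 : (1 : Polynomial k) ∈ D i j := by rw [htop]; trivial
    exact one_ne_zero (hj 1 h1 (by simp))
  refine hfin (degreeOf 1 C) (fun i => {j | Big (D i j) ((2 * 25000 + 1) ^ 2 + 1)}.ncard)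
    (fun i => {j | D i j ≠ ⊤}.ncard) (fun i => ?_) (fun i => ?_) (fun i => ?_) (hlow.trans hup) ?_
  · exact (std a s b t K₀ _ v D hS hb hGP _ C hCi hCv hC3 i).1
  · refine (Set.ncard_le_card _).trans ?_
    simp
  · exact (std a s b t K₀ _ v D hS hb hGP _ C hCi hCv hC3 i).2
  · have h1 := num_first N₁ N₂
    omega

end Pool.Agent.PPX.H3
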