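import Mathlib
import Pool.Agent.Helper97_PGH.Tower
import Pool.Agent.Helper97_PGH.Fin2
import Pool.Agent.Helper97_PGH.SchemeRel
import Pool.Agent.Helper3_PPX.Geo

/-!
# Squad PPX: the final theorem, from GOO
-/

set_option autoImplicit false

universe u

namespace Pool.Agent.PPX.H3

open CategoryTheory AlgebraicGeometry PGH

theorem good_of_tower {N₀ : ℕ} {k : Type u} {M : Type u} [Field k] [Field M] [Algebra k M]
    [IsAlgClosed k] [CharZero k]
    (hG : ∀ (F₀ : Set M) (F F' : Subfield M),
      PairStep N₀ (algebraMap k M).fieldRange F F' → (∀ w ∈ F, GoodEl k F₀ w) →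
      ∀ w ∈ F', GoodEl k F₀ w) {F₀ : Set M} {F F' : Subfield M}
    (h : Relation.ReflTransGen (PairStep N₀ (algebraMap k M).fieldRange) F F')
    (hF : ∀ a ∈ F, GoodEl k F₀ a) : ∀ a ∈ F', GoodEl k F₀ a := by
  induction h with
  | refl => exact hF
  | tail _ h ih => exact hG F₀ _ _ h ih

theorem fin (goo : GooStmt.{u, u}) : ∃ N₀ : ℕ, ∀ {k : Type u} [Field k] [IsAlgClosed k]
    [CharZero k] {X : Scheme.{u}} (f : X ⟶ Spec (.of k)) [IsIntegral X] [IsSeparated f]
    [LocallyOfFiniteType f] [QuasiCompact f],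
    (Relation.ReflTransGen (PairStep N₀ (constants k f).fieldRange)
      (constants k f).fieldRange ⊤ → IsPGH k f) ∧
    ∀ {Y : Scheme.{u}} (q : Y ⟶ Spec (.of k)) [IsIntegral Y] (g : X ⟶ Y) [IsDominant g],
      g ≫ q = f → IsPGH k q →
      Relation.ReflTransGen (PairStep N₀ (constants k f).fieldRange)
        (pullbackField g).fieldRange ⊤ → IsPGH k f := by
  obtain ⟨N₀, hG⟩ := goo
  refine ⟨N₀, ?_⟩
  intro k _ _ _ X f _ _ _ _
  let _ : Algebra k X.functionField := (constants k f).toAlgebra
  have hG' := fun (F₀ : Set X.functionField) (F F' : Subfield X.functionField) => hG (k := k) F₀ F F'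
  refine ⟨fun h => ?_, fun {Y} q _ g _ hgq hY h => ?_⟩
  · have hgood : ∀ a : X.functionField, GoodEl k (∅ : Set X.functionField) a := fun a =>
      good_of_tower (k := k) hG' h (by rintro _ ⟨c, rfl⟩; exact GoodEl.const _ c) a trivial
    refine isPGH_of_fields k f X.functionField (RingEquiv.refl _) (fun c => rfl) ?_
    intro A hA
    obtain ⟨T, hT, hh⟩ := good_main hgood A hA
    refine ⟨T, hT, fun d hd hd0 hTR E _ _ _ P x => ?_⟩
    refine (hh d hd hd0 hTR E P x (fun _ => 0)).subset ?_
    intro φ hφ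
    exact ⟨hφ, fun r hr => absurd hr.2 (Set.notMem_empty _)⟩
  · have hgood : ∀ a : X.functionField,
        GoodEl k (Set.range (fun b => RingEquiv.refl _ (pullbackField g b))) a := fun a =>
      good_of_tower (k := k) hG' h (by rintro _ ⟨b, rfl⟩; exact GoodEl.base ⟨b, rfl⟩) a trivial
    exact isPGH_of_fields_rel k f q g hgq hY X.functionField (RingEquiv.refl _) (fun c => rfl)
      (good_main hgood)

end Pool.Agent.PPX.H3
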