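import Mathlib
import Pool.Agent.Helper9_PPX.Alg
import Pool.Agent.Helper52_PPX.Bdt
import Pool.Agent.Helper63_PPX.Box
import Pool.Agent.Helper85_PPX.Chg
import Pool.Agent.Helper85_PPX.Cho
import Pool.Agent.Helper47_PPX.Cnt
import Pool.Agent.Helper65_PPX.Cop
import Pool.Agent.Helper85_PPX.Gen
import Pool.Agent.Helper6_PPX.Goo
import Pool.Agent.Helper75_PPX.Gpe
import Pool.Agent.Helper6_PPX.Hgt
import Pool.Agent.Helper52_PPX.Htl
import Pool.Agent.Helper5_PPX.Htx
import Pool.Agent.Helper75_PPX.Loc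
import Pool.Agent.Helper52_PPX.Ngc
import Pool.Agent.Helper86_PPX.Num
import Pool.Agent.Helper11_PPX.Nva
import Pool.Agent.Helper6_PPX.Pa2
import Pool.Agent.Helper24_PPX.Rig
import Pool.Agent.Helper47_PPX.Sba
import Pool.Agent.Helper29_PPX.Sca
import Pool.Agent.Helper90_PPX.Scb
import Pool.Agent.Helper90_PPX.Sda
import Pool.Agent.Helper33_PPX.Sdb
import Pool.Agent.Helper46_PPX.Spa
import Pool.Agent.Helper21_PPX.Sta
import Pool.Agent.Helper39_PPX.Stb
import Pool.Agent.Helper96_PPX.Stc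
import Pool.Agent.Helper96_PPX.Std
import Pool.Agent.Helper19_PPX.Tay
import Pool.Agent.Helper48_PPX.Ult
import Pool.Agent.Helper21_PPX.Upp
import Pool.Agent.Helper3_PPX.Fin

/-!
# Squad PPX: assembly
-/

set_option autoImplicit false

universe u

namespace Pool.Agent.PPX.H3

theorem cop0 : CopStmt.{u, 0} := H65.cop
theorem spa0 : SpaStmt.{u} := H46.spa cop0
theorem upp0 : UppStmt.{u} := H21.upp H63.box
theorem sta0 : StaStmt.{u} := H21.sta H63.box upp0
theorem stb0 : StbStmt.{u} := H39.stb H63.box upp0 H11.nva H47.sba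
theorem cho0 : ChoStmt.{u} := H85.cho H85.gen spa0 H85.chg
theorem stc0 : StcStmt.{u} := H96.stc H85.gen (H29.sca spa0) H90.scb
theorem std0 : StdStmt.{u} := H96.std H11.nva H90.sda H33.sdb
theorem alg0 : AlgStmt.{u} := H9.alg H63.box H48.ult upp0 sta0 stb0 cho0 stc0 std0 H86.num
theorem cnt0 : CntStmt.{u} := H47.cnt H63.box H52.ngc H52.htl
theorem bdt0 : BdtStmt.{u} := H52.bdt H75.loc H19.tay cnt0
theorem htx0 : HtxStmt.{u} := H5.htx alg0 bdt0
theorem goo0 : GooStmt.{u, u} := H6.goo htx0 (H6.hgt H6.pa2) (H24.rig H6.pa2)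
theorem gpe0 : GpeStmt.{u} := H75.gpe

end Pool.Agent.PPX.H3
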