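import Mathlib

/-!
# Pair steps: covers of a product of two lines with many branch fibres
-/

set_option autoImplicit false

namespace Pool.Agent.PairTowers

open MvPolynomial

/-- A pair step from the subfield `F` to the subfield `F'` of `M`, relative to `κ : k → M`: there
are elements `x`, `z` of `M`, algebraically independent over `k`, such that `F'` is algebraic
over the field generated by `F` and `x`, `z`; `N₁ ≥ N₀` distinct elements `a i` of `k` and
`N₂ ≥ N₀` distinct elements `b j` of `k` with `Φ N₂ (b) ≠ 0`; and relations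
`∏ (x - a i) ^ α r i * ∏ (z - b j) ^ β r j = c r * y r ^ e r` with `c r ≠ 0` in `F`, such that
for each `i` one of the exponents `α r i`, and for each `j` one of the exponents `β r j`, is not
divisible by `e r`. -/
structure Step (N₀ : ℕ) (Φ : ∀ N, MvPolynomial (Fin N) ℚ) {k M : Type*} [Field k]
    [CharZero k] [Field M] (κ : k →+* M) (F F' : Subfield M) : Prop where
  le : F ≤ F'
  step : ∃ (N₁ N₂ R : ℕ) (x z : M) (a : Fin N₁ → k) (b : Fin N₂ → k) (α : Fin R → Fin N₁ → ℤ)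
    (β : Fin R → Fin N₂ → ℤ) (e : Fin R → ℕ) (c y : Fin R → M), N₀ ≤ N₁ ∧ N₀ ≤ N₂ ∧
    Function.Injective a ∧ Function.Injective b ∧ aeval b (Φ N₂) ≠ 0 ∧
    (∀ r, c r ∈ F ∧ c r ≠ 0) ∧
    (∀ r, (∏ i, (x - κ (a i)) ^ α r i) * ∏ j, (z - κ (b j)) ^ β r j = c r * y r ^ e r) ∧
    (∀ i, ∃ r, ¬ (e r : ℤ) ∣ α r i) ∧ (∀ j, ∃ r, ¬ (e r : ℤ) ∣ β r j) ∧
    (∀ p : MvPolynomial (Fin 2) k, eval₂ κ ![x, z] p = 0 → p = 0) ∧
    ∀ w ∈ F', IsAlgebraic (Subfield.closure ((F : Set M) ∪ {x, z})) w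

end Pool.Agent.PairTowers
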