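import Mathlib
import Pool.Agent.Helper3_PPX.StepDef
import Pool.Agent.Helper3_PPX.Ass

/-!
# Squad PPX: the final theorem
-/

set_option autoImplicit false

universe u

namespace Pool.Agent.PPX.H3

open CategoryTheory AlgebraicGeometry PGH MvPolynomial

/-- a step in the sense of the final theorem is a pair step -/
theorem step_pair {Φ : ∀ N, MvPolynomial (Fin N) ℚ} (hΦ : ∀ (N : ℕ) {k : Type u} [Field k]
    [CharZero k] (b : Fin N → k), Function.Injective b → aeval b (Φ N) ≠ 0 → GP b (slope b))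
    {N₀ : ℕ} {k M : Type u} [Field k] [CharZero k] [Field M] (κ : k →+* M) {F F' : Subfield M}
    (h : PairTowers.Step N₀ Φ κ F F') : PairStep N₀ κ.fieldRange F F' := by
  obtain ⟨N₁, N₂, R, x, z, a, b, α, β, e, c, y, hN₁, hN₂, ha, hb, hΦb, hc, hR, hα, hβ, hind,
    halg⟩ := h.step
  have hM : CharZero M := charZero_of_injective_ringHom κ.injective
  refine ⟨h.le, N₁, N₂, R, x, z, fun i => κ (a i), fun j => κ (b j), α, β, e, c, y, hN₁, hN₂,
    fun i => ⟨a i, rfl⟩, fun j => ⟨b j, rfl⟩, κ.injective.comp ha, κ.injective.comp hb, ?_,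
    fun r => (hc r).1, ⟨fun r => (hc r).2, hR, hα, hβ⟩, ?_, halg⟩
  · refine hΦ N₂ (fun j => κ (b j)) (κ.injective.comp hb) ?_
    intro h0
    apply hΦb
    apply κ.injective
    rw [map_zero, ← h0]
    change κ (aeval b (Φ N₂)) = aeval (fun j => κ (b j)) (Φ N₂)
    rw [aeval_def, aeval_def, eval₂_comp_left]
    congr 1
    exact Subsingleton.elim _ _
  · intro p hp
    have hs : Function.Surjective (map (σ := Fin 2) κ.rangeRestrictField) :=
      map_surjective _ κ.rangeRestrictField_bijective.2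
    obtain ⟨p', rfl⟩ := hs p
    have h1 : eval₂ κ ![x, z] p' = 0 := by
      rw [eval₂_map] at hp
      exact hp
    rw [hind p' h1, map_zero]

/-- a tower of steps in the sense of the final theorem is a tower of pair steps -/
theorem tower_pair {Φ : ∀ N, MvPolynomial (Fin N) ℚ} (hΦ : ∀ (N : ℕ) {k : Type u} [Field k]
    [CharZero k] (b : Fin N → k), Function.Injective b → aeval b (Φ N) ≠ 0 → GP b (slope b))
    {N₀ : ℕ} {k M : Type u} [Field k] [CharZero k] [Field M] (κ : k →+* M) {F F' : Subfield M}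
    (h : Relation.ReflTransGen (PairTowers.Step N₀ Φ κ) F F') :
    Relation.ReflTransGen (PairStep N₀ κ.fieldRange) F F' := by
  induction h with
  | refl => exact .refl
  | tail _ h ih => exact ih.tail (step_pair hΦ κ h)

/-- the final theorem -/
theorem main : ∃ (N₀ : ℕ) (Φ : ∀ N, MvPolynomial (Fin N) ℚ), (∀ N, Φ N ≠ 0) ∧
    ∀ {k : Type u} [Field k] [IsAlgClosed k] [CharZero k] {X : Scheme.{u}}
      (f : X ⟶ Spec (.of k)) [IsIntegral X] [IsSeparated f]
      [LocallyOfFiniteType f] [QuasiCompact f],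
    (Relation.ReflTransGen (PairTowers.Step N₀ Φ (constants k f)) (constants k f).fieldRange ⊤ →
      IsPGH k f) ∧
    ∀ {Y : Scheme.{u}} (q : Y ⟶ Spec (.of k)) [IsIntegral Y] (g : X ⟶ Y) [IsDominant g],
      g ≫ q = f → IsPGH k q →
      Relation.ReflTransGen (PairTowers.Step N₀ Φ (constants k f)) (pullbackField g).fieldRange ⊤ →
      IsPGH k f := by
  choose Φ hΦ0 hΦ using gpe0.{u}
  obtain ⟨N₀, hN₀⟩ := fin goo0.{u}
  refine ⟨N₀, Φ, hΦ0, ?_⟩
  intro k _ _ _ X f _ _ _ _
  obtain ⟨h1, h2⟩ := hN₀ (k := k) f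
  exact ⟨fun h => h1 (tower_pair (fun N => hΦ N) _ h),
    fun {Y} q _ g _ hgq hY h => h2 q g hgq hY (tower_pair (fun N => hΦ N) _ h)⟩

end Pool.Agent.PPX.H3
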