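import Mathlib
import Pool.Agent.Helper3_PPX.StepDef
import Pool.Agent.Helper3_PPX.Main

open CategoryTheory AlgebraicGeometry PGH

universe u

/-!
# Covers of products of two lines with arbitrary and general branch fibres

There are a natural number `N₀` and non-zero polynomials `Φ N` with rational coefficients in `N`
variables with the following property.  Let `k` be algebraically closed of characteristic zero and
`X` a variety over `k`.  A pair step `F ≤ F'` between subfields of `k(X)` is given by elements
`x`, `z` of `k(X)`, algebraically independent over `k`, such that `F'` is algebraic over the field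
generated by `F` and `x`, `z`, by `N₁ ≥ N₀` distinct elements `a i` of `k` and `N₂ ≥ N₀` distinct
elements `b j` of `k` with `Φ N₂ (b) ≠ 0` (there is no condition on the `a i`), and by finitely many
relations `∏ (x - a i) ^ α i * ∏ (z - b j) ^ β j = c * y ^ e` with `c` in `F` such that for each
`i` one of the exponents `α i`, and for each `j` one of the exponents `β j`, is not divisible by
`e` (all fibres are branch fibres).

If `k(X)` is reached from `k`, or from the function field of a pseudo-geometrically hyperbolic `Y`
dominated by `X`, by finitely many pair steps, then `X` is pseudo-geometrically hyperbolic.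
-/

namespace Pool.Agent.Results.MP_5b1cbc_ag.PairTowers

theorem result :
    ∃ (N₀ : ℕ) (Φ : ∀ N, MvPolynomial (Fin N) ℚ), (∀ N, Φ N ≠ 0) ∧
      ∀ {k : Type u} [Field k] [IsAlgClosed k] [CharZero k] {X : Scheme.{u}}
        (f : X ⟶ Spec (.of k)) [IsIntegral X] [IsSeparated f]
        [LocallyOfFiniteType f] [QuasiCompact f],
      (Relation.ReflTransGen (PairTowers.Step N₀ Φ (constants k f))
        (constants k f).fieldRange ⊤ → IsPGH k f) ∧
      ∀ {Y : Scheme.{u}} (q : Y ⟶ Spec (.of k)) [IsIntegral Y] (g : X ⟶ Y) [IsDominant g],
        g ≫ q = f → IsPGH k q →
        Relation.ReflTransGen (PairTowers.Step N₀ Φ (constants k f))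
          (pullbackField g).fieldRange ⊤ → IsPGH k f :=
  PPX.H3.main

end Pool.Agent.Results.MP_5b1cbc_ag.PairTowers
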